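import Mathlib

/-!
STORM X, the assembly in pure form.  `a i = EE(2^i)^2 / 2^i`, `D N i` = sum of the
conditional variances over the slabs of the level `i`, `M N i` = sum of the interaction
terms of the level `i`, `G N i` = gain of the glued functional in units of the level `i`.
-/

namespace Pool.Agent.W_7d29a1_XA

open Finset

/-- the sum of the top levels is a multiple of the sum below -/
lemma tail_le {a : ℕ → ℝ} (ha : ∀ i, 0 < a i) (ha2 : ∀ i, a (i + 1) ≤ 2 * a i)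
    (r : ℕ) : ∀ {j L : ℕ}, j ≤ L →
    ∑ i ∈ Icc j (L + r), a i ≤ (2 : ℝ) ^ (r + 1) * ∑ i ∈ Icc j L, a i := by
  intro j L hjL
  have hpow : ∀ t, a (L + t) ≤ 2 ^ t * a L := by
    intro t
    induction t with
    | zero => simp
    | succ t ih =>
      have := ha2 (L + t)
      calc a (L + (t + 1)) = a (L + t + 1) := by ring_nf
        _ ≤ 2 * a (L + t) := this
        _ ≤ 2 * (2 ^ t * a L) := by linarith
        _ = 2 ^ (t + 1) * a L := by ring
  have haL : a L ≤ ∑ i ∈ Icc j L, a i :=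
    Finset.single_le_sum (f := fun i => a i) (fun i _ => (ha i).le) (by simp [hjL])
  have h0 : 0 ≤ ∑ i ∈ Icc j L, a i := Finset.sum_nonneg fun i _ => (ha i).le
  induction r with
  | zero => simp; linarith
  | succ r ih =>
    have hs : ∑ i ∈ Icc j (L + (r + 1)), a i
        = ∑ i ∈ Icc j (L + r), a i + a (L + (r + 1)) := by
      rw [show L + (r + 1) = (L + r) + 1 by ring]
      rw [Finset.sum_Icc_succ_top (by omega)]
    rw [hs]
    have h1 := hpow (r + 1)
    have h2 : (2 : ℝ) ^ (r + 1) * a L ≤ 2 ^ (r + 1) * ∑ i ∈ Icc j L, a i :=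
      mul_le_mul_of_nonneg_left haL (by positivity)
    calc _ ≤ (2 : ℝ) ^ (r + 1) * ∑ i ∈ Icc j L, a i + 2 ^ (r + 1) * ∑ i ∈ Icc j L, a i := by
          linarith
      _ = 2 ^ (r + 1 + 1) * ∑ i ∈ Icc j L, a i := by ring

/-- telescoping -/
lemma tele {D M : ℕ → ℝ} (hD : ∀ i, 0 ≤ D i) (h : ∀ i, D (i + 1) + M i ≤ D i) :
    ∀ {j L : ℕ}, j ≤ L → ∑ i ∈ Icc j L, M i ≤ D j := by
  intro j L hjL
  have key : ∀ r, ∑ i ∈ Icc j (j + r), M i + D (j + r + 1) ≤ D j := by
    intro r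
    induction r with
    | zero => simpa [add_comm] using h j
    | succ r ih =>
      rw [show j + (r + 1) = (j + r) + 1 by ring, Finset.sum_Icc_succ_top (by omega)]
      have := h (j + r + 1)
      linarith
  obtain ⟨r, rfl⟩ := Nat.exists_eq_add_of_le hjL
  have := key r
  have h2 := hD (j + r + 1)
  linarith

/-- the pure assembly -/
theorem asm_pure {a : ℕ → ℝ} {D M G : ℕ → ℕ → ℝ}
    (ha : ∀ i, 0 < a i) (ha2 : ∀ i, a (i + 1) ≤ 2 * a i)
    (hD : ∀ N i, 0 ≤ D N i) (hM : ∀ N i, 0 ≤ M N i) (hG : ∀ N i, 0 ≤ G N i)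
    (A0 : ∃ C : ℝ, ∀ N : ℕ, 1 ≤ N → D N 0 ≤ C * N)
    (A1 : ∀ N i, D N (i + 1) + M N i ≤ D N i)
    (A2 : ∀ K : ℝ, ∃ c : ℝ, 0 < c ∧ ∃ j0 i0 : ℕ, ∀ J N i : ℕ, 2 ^ J < N → N ≤ 2 * 2 ^ J →
      i0 ≤ i → i + j0 ≤ J → G N i ≤ K → c * N * a i ≤ M N i)
    (A3 : ∃ C : ℝ, 0 < C ∧ ∀ (J : ℕ) (al : ℕ → ℝ), (∀ i, 0 ≤ al i) →
      ∃ N : ℕ, 2 ^ J < N ∧ N ≤ 2 * 2 ^ J ∧
        ∑ i ∈ range J, al i * G N i ≤ C * ∑ i ∈ range J, al i)
    (A4 : ∀ e : ℝ, 0 < e → ∃ (C : ℝ) (j0 i0 : ℕ), ∀ J N j : ℕ, 2 ^ J < N → N ≤ 2 * 2 ^ J →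
      i0 ≤ j → j + j0 ≤ J → D N j ≤ C * N * a j + e * N * ∑ i ∈ Icc j J, a i) :
    ∃ C θ : ℝ, 0 < C ∧ 0 < θ ∧ θ < 1 ∧ ∀ J : ℕ, a J ≤ C * θ ^ J := by
  obtain ⟨C0, hC0⟩ := A0
  obtain ⟨C3, hC3, h3⟩ := A3
  obtain ⟨c, hc, j1', i1, h2⟩ := A2 (2 * C3)
  set j1 : ℕ := j1' + 1 with hj1
  set c' : ℝ := c / 2 / 2 ^ (j1 + 1) with hc'
  have hc'0 : 0 < c' := by positivity
  obtain ⟨C4, j2, i2, h4⟩ := A4 (c' / 2) (by positivity)
  set js : ℕ := max j1 j2 with hjs
  set is : ℕ := max i1 i2 with his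
  -- lower bound
  have low : ∀ J j : ℕ, i1 ≤ j → j + j1 ≤ J → ∃ N : ℕ, 2 ^ J < N ∧ N ≤ 2 * 2 ^ J ∧
      c' * N * ∑ i ∈ Icc j J, a i ≤ D N j := by
    intro J j hij hjJ
    obtain ⟨L, rfl⟩ : ∃ L, J = L + j1 := ⟨J - j1, by omega⟩
    have hjL : j ≤ L := by omega
    obtain ⟨N, hN1, hN2, hN3⟩ := h3 (L + j1) (fun i => if i ∈ Icc j L then a i else 0)
      (fun i => by split_ifs with h; exacts [(ha i).le, le_rfl])
    refine ⟨N, hN1, hN2, ?_⟩
    have hsub : Icc j L ⊆ range (L + j1) := by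
      intro i hi
      rw [mem_Icc] at hi
      rw [mem_range]; omega
    have e1 : ∑ i ∈ range (L + j1), (if i ∈ Icc j L then a i else 0) * G N i
        = ∑ i ∈ Icc j L, a i * G N i := by
      rw [← Finset.sum_subset hsub]
      · exact Finset.sum_congr rfl fun i hi => by simp [hi]
      · intro i _ hi; simp [hi]
    have e2 : ∑ i ∈ range (L + j1), (if i ∈ Icc j L then a i else 0)
        = ∑ i ∈ Icc j L, a i := by
      rw [← Finset.sum_subset hsub]
      · exact Finset.sum_congr rfl fun i hi => by simp [hi]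
      · intro i _ hi; simp [hi]
    rw [e1, e2] at hN3
    have hNpos : (0 : ℝ) < N := by
      have : 0 < N := lt_of_le_of_lt (Nat.zero_le _) hN1
      exact_mod_cast this
    -- each term
    have hterm : ∀ i ∈ Icc j L, c * N * a i - c * N * (a i * G N i) / (2 * C3) ≤ M N i := by
      intro i hi
      rw [mem_Icc] at hi
      by_cases hgi : G N i ≤ 2 * C3
      · have := h2 (L + j1) N i hN1 hN2 (by omega) (by omega) hgi
        have h0 : 0 ≤ c * N * (a i * G N i) / (2 * C3) := by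
          have := hG N i; have := (ha i).le; positivity
        linarith
      · have hgi' : 2 * C3 < G N i := not_le.1 hgi
        have h0 := hM N i
        have h1 : c * N * a i ≤ c * N * (a i * G N i) / (2 * C3) := by
          rw [le_div_iff₀ (by positivity)]
          have : a i * (2 * C3) ≤ a i * G N i := mul_le_mul_of_nonneg_left hgi'.le (ha i).le
          calc c * N * a i * (2 * C3) = c * N * (a i * (2 * C3)) := by ring
            _ ≤ c * N * (a i * G N i) := mul_le_mul_of_nonneg_left this (by positivity)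
        linarith
    have hsum := Finset.sum_le_sum hterm
    have htele := tele (D := D N) (M := M N) (hD N) (A1 N) hjL
    rw [Finset.sum_sub_distrib] at hsum
    have s1 : ∑ i ∈ Icc j L, c * N * a i = c * N * ∑ i ∈ Icc j L, a i := by
      rw [Finset.mul_sum]
    have s2 : ∑ i ∈ Icc j L, c * N * (a i * G N i) / (2 * C3)
        = c * N * (∑ i ∈ Icc j L, a i * G N i) / (2 * C3) := by
      rw [Finset.mul_sum, Finset.sum_div]
    rw [s1, s2] at hsum
    have s3 : c * N * (∑ i ∈ Icc j L, a i * G N i) / (2 * C3)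
        ≤ c * N * (∑ i ∈ Icc j L, a i) / 2 := by
      rw [div_le_div_iff₀ (by positivity) (by norm_num)]
      have := mul_le_mul_of_nonneg_left hN3 (show (0 : ℝ) ≤ c * N by positivity)
      nlinarith
    have hD' : c / 2 * N * ∑ i ∈ Icc j L, a i ≤ D N j := by
      have : c / 2 * N * ∑ i ∈ Icc j L, a i
          = c * N * ∑ i ∈ Icc j L, a i - c * N * (∑ i ∈ Icc j L, a i) / 2 := by ring
      linarith
    have htl := tail_le ha ha2 j1 hjL
    calc c' * N * ∑ i ∈ Icc j (L + j1), a i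
        ≤ c' * N * (2 ^ (j1 + 1) * ∑ i ∈ Icc j L, a i) :=
          mul_le_mul_of_nonneg_left htl (by positivity)
      _ = c / 2 * N * ∑ i ∈ Icc j L, a i := by
          rw [hc']
          have : (2 : ℝ) ^ (j1 + 1) ≠ 0 := by positivity
          field_simp
      _ ≤ D N j := hD'
  -- upper bound of the sums
  set C5 : ℝ := max (2 * C4 / c') 2 with hC5
  have hC52 : 2 ≤ C5 := le_max_right _ _
  have up : ∀ J j : ℕ, is ≤ j → j + js ≤ J → ∑ i ∈ Icc j J, a i ≤ C5 * a j := by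
    intro J j hj hjJ
    have i1j : i1 ≤ j := le_trans (le_max_left _ _) hj
    have i2j : i2 ≤ j := le_trans (le_max_right _ _) hj
    have j1J : j + j1 ≤ J := le_trans (Nat.add_le_add_left (le_max_left j1 j2) _) hjJ
    have j2J : j + j2 ≤ J := le_trans (Nat.add_le_add_left (le_max_right j1 j2) _) hjJ
    obtain ⟨N, hN1, hN2, hN⟩ := low J j i1j j1J
    have h := h4 J N j hN1 hN2 i2j j2J
    have hNpos : (0 : ℝ) < N := by
      have : 0 < N := lt_of_le_of_lt (Nat.zero_le _) hN1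
      exact_mod_cast this
    set S := ∑ i ∈ Icc j J, a i with hS
    have h5 : c' / 2 * N * S ≤ C4 * N * a j := by linarith
    have h6 : c' / 2 * S ≤ C4 * a j := by
      have : N * (c' / 2 * S) ≤ N * (C4 * a j) := by linarith
      exact le_of_mul_le_mul_left this hNpos
    have h7 : S ≤ 2 * C4 / c' * a j := by
      rw [div_mul_eq_mul_div, le_div_iff₀ hc'0]
      linarith
    exact h7.trans (mul_le_mul_of_nonneg_right (le_max_left _ _) (ha j).le)
  -- decay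
  set θ : ℝ := 1 - 1 / C5 with hθ
  have hC5pos : 0 < C5 := by linarith
  have hθ0 : 0 < θ := by
    have : 1 / C5 ≤ 1 / 2 := one_div_le_one_div_of_le (by norm_num) hC52
    rw [hθ]; linarith
  have hθ1 : θ < 1 := by
    have : 0 < 1 / C5 := by positivity
    rw [hθ]; linarith
  have step : ∀ J j : ℕ, is ≤ j → j + js ≤ J → j + 1 ≤ J →
      ∑ i ∈ Icc (j + 1) J, a i ≤ θ * ∑ i ∈ Icc j J, a i := by
    intro J j hj hjJ hj1
    have h := up J j hj hjJ
    have hs : ∑ i ∈ Icc j J, a i = a j + ∑ i ∈ Icc (j + 1) J, a i := by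
      rw [← Finset.add_sum_Ioc_eq_sum_Icc (by omega)]
      congr 1
      exact Finset.sum_congr (by ext x; simp only [Finset.mem_Ioc, Finset.mem_Icc]; omega)
        (fun _ _ => rfl)
    have h8 : (1 / C5) * ∑ i ∈ Icc j J, a i ≤ a j := by
      rw [div_mul_eq_mul_div, one_mul, div_le_iff₀ hC5pos]
      linarith
    rw [hθ]
    linarith
  have dec : ∀ J r : ℕ, is + r + js ≤ J →
      ∑ i ∈ Icc (is + r) J, a i ≤ θ ^ r * ∑ i ∈ Icc is J, a i := by
    intro J r
    induction r with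
    | zero => intro _; simp
    | succ r ih =>
      intro h
      have h1 := ih (by omega)
      have h9 := step J (is + r) (by omega) (by omega) (by omega)
      calc ∑ i ∈ Icc (is + (r + 1)) J, a i = ∑ i ∈ Icc (is + r + 1) J, a i := by
            rw [add_assoc]
        _ ≤ θ * ∑ i ∈ Icc (is + r) J, a i := h9
        _ ≤ θ * (θ ^ r * ∑ i ∈ Icc is J, a i) := mul_le_mul_of_nonneg_left h1 hθ0.le
        _ = θ ^ (r + 1) * ∑ i ∈ Icc is J, a i := by ring
  have base : ∀ J : ℕ, is + js ≤ J → ∑ i ∈ Icc is J, a i ≤ C0 / c' := by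
    intro J hJ
    have j1J : is + j1 ≤ J := le_trans (Nat.add_le_add_left (le_max_left j1 j2) _) hJ
    obtain ⟨N, hN1, hN2, hN⟩ := low J is (le_max_left _ _) j1J
    have hN0 : 0 < N := lt_of_le_of_lt (Nat.zero_le _) hN1
    have hNpos : (0 : ℝ) < N := by exact_mod_cast hN0
    have hmono : ∀ r, D N r ≤ D N 0 := by
      intro r
      induction r with
      | zero => exact le_rfl
      | succ r ih => have := A1 N r; have := hM N r; linarith
    have h10 := hC0 N hN0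
    have h11 : N * (c' * ∑ i ∈ Icc is J, a i) ≤ N * C0 := by
      have := hmono is
      linarith
    have h12 := le_of_mul_le_mul_left h11 hNpos
    rw [le_div_iff₀ hc'0]
    linarith
  -- the bound
  have hC0' : 0 ≤ C0 / c' := by
    refine le_trans (Finset.sum_nonneg fun i _ => (ha i).le) (base (is + js) le_rfl)
  set Q : ℝ := ∑ i ∈ range (is + js + 1), a i / θ ^ i with hQ
  have hQ0 : 0 ≤ Q := Finset.sum_nonneg fun i _ => by have := (ha i).le; positivity
  refine ⟨C0 / c' / θ ^ (is + js) + Q + 1, θ, by positivity, hθ0, hθ1, ?_⟩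
  intro J
  by_cases hJ : J < is + js + 1
  · have : a J / θ ^ J ≤ Q :=
      Finset.single_le_sum (f := fun i => a i / θ ^ i)
        (fun i _ => by have := (ha i).le; positivity) (by simpa using hJ)
    have hp : 0 < θ ^ J := by positivity
    rw [div_le_iff₀ hp] at this
    have h13 : Q * θ ^ J ≤ (C0 / c' / θ ^ (is + js) + Q + 1) * θ ^ J := by
      apply mul_le_mul_of_nonneg_right _ hp.le
      have : 0 ≤ C0 / c' / θ ^ (is + js) := by positivity
      linarith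
    linarith
  · obtain ⟨r, hr⟩ : ∃ r, J = is + js + r := ⟨J - (is + js), by omega⟩
    have h14 := dec J r (by omega)
    have h15 := base J (by omega)
    have h16 : a J ≤ ∑ i ∈ Icc (is + r) J, a i :=
      Finset.single_le_sum (f := fun i => a i) (fun i _ => (ha i).le) (by simp; omega)
    have hp : 0 < θ ^ r := by positivity
    have h17 : a J ≤ θ ^ r * (C0 / c') :=
      h16.trans (h14.trans (mul_le_mul_of_nonneg_left h15 hp.le))
    have h18 : θ ^ r * (C0 / c') = C0 / c' / θ ^ (is + js) * θ ^ J := by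
      rw [hr, pow_add θ (is + js) r]
      have : θ ^ (is + js) ≠ 0 := by positivity
      field_simp
    rw [h18] at h17
    have hpJ : 0 < θ ^ J := by positivity
    have : C0 / c' / θ ^ (is + js) * θ ^ J ≤ (C0 / c' / θ ^ (is + js) + Q + 1) * θ ^ J := by
      apply mul_le_mul_of_nonneg_right _ hpJ.le
      linarith
    linarith

/-- the pure assembly, weak form of the hypotheses, strong form of the conclusion: power decay from
every level -/
theorem asm_pure3 {a : ℕ → ℝ} {D M G : ℕ → ℕ → ℝ}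
    (ha : ∀ i, 0 < a i) (ha2 : ∀ i, a (i + 1) ≤ 2 * a i)
    (hD : ∀ N i, 0 ≤ D N i) (hM : ∀ N i, 0 ≤ M N i) (hG : ∀ N i, 0 ≤ G N i)
    (A1 : ∀ N i, D N (i + 1) + M N i ≤ D N i)
    (A2 : ∀ K : ℝ, ∃ c : ℝ, 0 < c ∧ ∃ j0 : ℕ, ∀ J1 : ℕ, ∃ i0 : ℕ, ∀ j i N : ℕ, i0 ≤ j → j ≤ i →
      i + j0 ≤ j + J1 → 2 ^ (j + J1) < N → N ≤ 2 * 2 ^ (j + J1) → G N i ≤ K →
      c * N * a i ≤ M N i)
    (A3 : ∃ C : ℝ, 0 < C ∧ ∀ (J : ℕ) (al : ℕ → ℝ), (∀ i, 0 ≤ al i) →
      ∃ N : ℕ, 2 ^ J < N ∧ N ≤ 2 * 2 ^ J ∧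
        ∑ i ∈ range J, al i * G N i ≤ C * ∑ i ∈ range J, al i)
    (A4 : ∀ e : ℝ, 0 < e → ∃ (C : ℝ) (j0 : ℕ), ∀ J1 : ℕ, j0 ≤ J1 → ∃ i0 : ℕ, ∀ j N : ℕ, i0 ≤ j →
      2 ^ (j + J1) < N → N ≤ 2 * 2 ^ (j + J1) →
      D N j ≤ C * N * a j + e * N * ∑ i ∈ Icc j (j + J1), a i) :
    ∃ (C θ : ℝ) (j0 : ℕ), 0 < C ∧ 0 < θ ∧ θ < 1 ∧ ∀ j i : ℕ, j0 ≤ j → j ≤ i → a i ≤ C * θ ^ (i - j) * a j := by
  obtain ⟨C3, hC3, h3⟩ := A3
  obtain ⟨c, hc, j1', h2⟩ := A2 (2 * C3)
  set j1 : ℕ := j1' + 1 with hj1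
  set c' : ℝ := c / 2 / 2 ^ (j1 + 1) with hc'
  have hc'0 : 0 < c' := by positivity
  obtain ⟨C4, j2, h4⟩ := A4 (c' / 2) (by positivity)
  set C5 : ℝ := max (2 * C4 / c') 2 with hC5
  have hC52 : 2 ≤ C5 := le_max_right _ _
  obtain ⟨J0, hJ0⟩ := exists_nat_gt (4 * C5)
  set J1 : ℕ := max (max j1 j2) J0 with hJ1
  have j1J1 : j1 ≤ J1 := le_trans (le_max_left _ _) (le_max_left _ _)
  have j2J1 : j2 ≤ J1 := le_trans (le_max_right _ _) (le_max_left _ _)
  have J0J1 : (J0 : ℝ) ≤ J1 := by exact_mod_cast le_max_right _ _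
  have hJ1pos : (0 : ℝ) < J1 := by linarith
  have hJ1pos' : 0 < J1 := by exact_mod_cast hJ1pos
  obtain ⟨i1, h2⟩ := h2 J1
  obtain ⟨i2, h4⟩ := h4 J1 j2J1
  set is : ℕ := max i1 i2 with his
  -- lower bound
  have low : ∀ j : ℕ, i1 ≤ j → ∃ N : ℕ, 2 ^ (j + J1) < N ∧ N ≤ 2 * 2 ^ (j + J1) ∧
      c' * N * ∑ i ∈ Icc j (j + J1), a i ≤ D N j := by
    intro j hij
    obtain ⟨L, hL⟩ : ∃ L, j + J1 = L + j1 := ⟨j + J1 - j1, by omega⟩
    have hjL : j ≤ L := by omega
    obtain ⟨N, hN1, hN2, hN3⟩ := h3 (L + j1) (fun i => if i ∈ Icc j L then a i else 0)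
      (fun i => by split_ifs with h; exacts [(ha i).le, le_rfl])
    refine ⟨N, by rw [hL]; exact hN1, by rw [hL]; exact hN2, ?_⟩
    have hsub : Icc j L ⊆ range (L + j1) := by
      intro i hi
      rw [mem_Icc] at hi
      rw [mem_range]; omega
    have e1 : ∑ i ∈ range (L + j1), (if i ∈ Icc j L then a i else 0) * G N i
        = ∑ i ∈ Icc j L, a i * G N i := by
      rw [← Finset.sum_subset hsub]
      · exact Finset.sum_congr rfl fun i hi => by simp [hi]
      · intro i _ hi; simp [hi]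
    have e2 : ∑ i ∈ range (L + j1), (if i ∈ Icc j L then a i else 0)
        = ∑ i ∈ Icc j L, a i := by
      rw [← Finset.sum_subset hsub]
      · exact Finset.sum_congr rfl fun i hi => by simp [hi]
      · intro i _ hi; simp [hi]
    rw [e1, e2] at hN3
    have hNpos : (0 : ℝ) < N := by
      have : 0 < N := lt_of_le_of_lt (Nat.zero_le _) hN1
      exact_mod_cast this
    have hterm : ∀ i ∈ Icc j L, c * N * a i - c * N * (a i * G N i) / (2 * C3) ≤ M N i := by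
      intro i hi
      rw [mem_Icc] at hi
      by_cases hgi : G N i ≤ 2 * C3
      · have := h2 j i N hij hi.1 (by omega) (by rw [hL]; exact hN1) (by rw [hL]; exact hN2) hgi
        have h0 : 0 ≤ c * N * (a i * G N i) / (2 * C3) := by
          have := hG N i; have := (ha i).le; positivity
        linarith
      · have hgi' : 2 * C3 < G N i := not_le.1 hgi
        have h0 := hM N i
        have h1 : c * N * a i ≤ c * N * (a i * G N i) / (2 * C3) := by
          rw [le_div_iff₀ (by positivity)]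
          have : a i * (2 * C3) ≤ a i * G N i := mul_le_mul_of_nonneg_left hgi'.le (ha i).le
          calc c * N * a i * (2 * C3) = c * N * (a i * (2 * C3)) := by ring
            _ ≤ c * N * (a i * G N i) := mul_le_mul_of_nonneg_left this (by positivity)
        linarith
    have hsum := Finset.sum_le_sum hterm
    have htele := tele (D := D N) (M := M N) (hD N) (A1 N) hjL
    rw [Finset.sum_sub_distrib] at hsum
    have s1 : ∑ i ∈ Icc j L, c * N * a i = c * N * ∑ i ∈ Icc j L, a i := by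
      rw [Finset.mul_sum]
    have s2 : ∑ i ∈ Icc j L, c * N * (a i * G N i) / (2 * C3)
        = c * N * (∑ i ∈ Icc j L, a i * G N i) / (2 * C3) := by
      rw [Finset.mul_sum, Finset.sum_div]
    rw [s1, s2] at hsum
    have s3 : c * N * (∑ i ∈ Icc j L, a i * G N i) / (2 * C3)
        ≤ c * N * (∑ i ∈ Icc j L, a i) / 2 := by
      rw [div_le_div_iff₀ (by positivity) (by norm_num)]
      have := mul_le_mul_of_nonneg_left hN3 (show (0 : ℝ) ≤ c * N by positivity)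
      nlinarith
    have hD' : c / 2 * N * ∑ i ∈ Icc j L, a i ≤ D N j := by
      have : c / 2 * N * ∑ i ∈ Icc j L, a i
          = c * N * ∑ i ∈ Icc j L, a i - c * N * (∑ i ∈ Icc j L, a i) / 2 := by ring
      linarith
    have htl := tail_le ha ha2 j1 hjL
    rw [hL]
    calc c' * N * ∑ i ∈ Icc j (L + j1), a i
        ≤ c' * N * (2 ^ (j1 + 1) * ∑ i ∈ Icc j L, a i) :=
          mul_le_mul_of_nonneg_left htl (by positivity)
      _ = c / 2 * N * ∑ i ∈ Icc j L, a i := by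
          rw [hc']
          have : (2 : ℝ) ^ (j1 + 1) ≠ 0 := by positivity
          field_simp
      _ ≤ D N j := hD'
  -- upper bound of the sums
  have up : ∀ j : ℕ, is ≤ j → ∑ i ∈ Icc j (j + J1), a i ≤ C5 * a j := by
    intro j hj
    have i1j : i1 ≤ j := le_trans (le_max_left _ _) hj
    have i2j : i2 ≤ j := le_trans (le_max_right _ _) hj
    obtain ⟨N, hN1, hN2, hN⟩ := low j i1j
    have h := h4 j N i2j hN1 hN2
    have hNpos : (0 : ℝ) < N := by
      have : 0 < N := lt_of_le_of_lt (Nat.zero_le _) hN1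
      exact_mod_cast this
    set S := ∑ i ∈ Icc j (j + J1), a i with hS
    have h5 : c' / 2 * N * S ≤ C4 * N * a j := by linarith
    have h6 : c' / 2 * S ≤ C4 * a j := by
      have : N * (c' / 2 * S) ≤ N * (C4 * a j) := by linarith
      exact le_of_mul_le_mul_left this hNpos
    have h7 : S ≤ 2 * C4 / c' * a j := by
      rw [div_mul_eq_mul_div, le_div_iff₀ hc'0]
      linarith
    exact h7.trans (mul_le_mul_of_nonneg_right (le_max_left _ _) (ha j).le)
  -- one step down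
  have down : ∀ j : ℕ, is ≤ j → ∃ i, j < i ∧ i ≤ j + J1 ∧ a i ≤ a j / 4 := by
    intro j hj
    by_contra hcon
    push Not at hcon
    have h := up j hj
    have h5 : ∑ i ∈ Ioc j (j + J1), a j / 4 ≤ ∑ i ∈ Ioc j (j + J1), a i :=
      Finset.sum_le_sum fun i hi => by
        rw [mem_Ioc] at hi
        exact (hcon i hi.1 hi.2).le
    have h6 : ∑ i ∈ Ioc j (j + J1), a i ≤ ∑ i ∈ Icc j (j + J1), a i :=
      Finset.sum_le_sum_of_subset_of_nonneg
        (fun i hi => by rw [mem_Ioc] at hi; rw [mem_Icc]; omega) (fun i _ _ => (ha i).le)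
    rw [Finset.sum_const, Nat.card_Ioc, nsmul_eq_mul] at h5
    have h7 : ((j + J1 - j : ℕ) : ℝ) = J1 := by
      congr 1; omega
    rw [h7] at h5
    have h8 : (J1 : ℝ) * (a j / 4) ≤ C5 * a j := h5.trans (h6.trans h)
    have h9 : 4 * C5 < J1 := lt_of_lt_of_le hJ0 J0J1
    have := ha j
    nlinarith
  -- the bound
  set θ : ℝ := 1 - 1 / (2 * J1) with hθ
  have hJ1one : (1 : ℝ) ≤ J1 := by exact_mod_cast hJ1pos'
  have hx1 : 1 / (2 * (J1 : ℝ)) ≤ 1 / 2 := one_div_le_one_div_of_le (by norm_num) (by linarith)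
  have hx0 : 0 < 1 / (2 * (J1 : ℝ)) := by positivity
  have hθ0 : 0 < θ := by rw [hθ]; linarith
  have hθ1 : θ < 1 := by rw [hθ]; linarith
  have hθJ : 1 / 4 ≤ θ ^ J1 := by
    have hb := one_add_mul_le_pow (a := -(1 / (2 * (J1 : ℝ)))) (by linarith) J1
    have e1 : (J1 : ℝ) * -(1 / (2 * (J1 : ℝ))) = -(1 / 2) := by field_simp
    rw [e1] at hb
    rw [hθ, sub_eq_add_neg]
    linarith
  have good : ∀ j0 : ℕ, is ≤ j0 → ∀ r : ℕ, ∃ t, t ≤ r ∧ r < t + J1 ∧ a (j0 + t) ≤ θ ^ t * a j0 := by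
    intro j0 hj0 r
    induction r with
    | zero => exact ⟨0, le_rfl, by omega, by simp⟩
    | succ r ih =>
      obtain ⟨t, h1, h2, h3⟩ := ih
      by_cases hj : r + 1 < t + J1
      · exact ⟨t, by omega, hj, h3⟩
      · obtain ⟨i, hi1, hi2, hi3⟩ := down (j0 + t) (by omega)
        obtain ⟨u, rfl⟩ : ∃ u, i = j0 + (t + u) := ⟨i - (j0 + t), by omega⟩
        refine ⟨t + u, by omega, by omega, ?_⟩
        have hu : u ≤ J1 := by omega
        have h6 : 1 / 4 ≤ θ ^ u := hθJ.trans (pow_le_pow_of_le_one hθ0.le hθ1.le hu)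
        have hp : 0 < θ ^ t * a j0 := by have := ha j0; positivity
        calc a (j0 + (t + u)) ≤ a (j0 + t) / 4 := hi3
          _ ≤ θ ^ t * a j0 * (1 / 4) := by linarith
          _ ≤ θ ^ t * a j0 * θ ^ u := mul_le_mul_of_nonneg_left h6 hp.le
          _ = θ ^ (t + u) * a j0 := by rw [pow_add]; ring
  have hpow : ∀ j t, a (j + t) ≤ 2 ^ t * a j := by
    intro j t
    induction t with
    | zero => simp
    | succ t ih =>
      have := ha2 (j + t)
      calc a (j + (t + 1)) = a (j + t + 1) := by ring_nf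
        _ ≤ 2 * a (j + t) := this
        _ ≤ 2 * (2 ^ t * a j) := by linarith
        _ = 2 ^ (t + 1) * a j := by ring
  refine ⟨2 ^ J1 * 4, θ, is, by positivity, hθ0, hθ1, ?_⟩
  intro j i hj hji
  obtain ⟨r, rfl⟩ : ∃ r, i = j + r := ⟨i - j, by omega⟩
  rw [show j + r - j = r by omega]
  obtain ⟨t, h1, h2, h3⟩ := good j hj r
  obtain ⟨u, rfl⟩ : ∃ u, r = t + u := ⟨r - t, by omega⟩
  have hu : u ≤ J1 := by omega
  have h5 : a (j + (t + u)) ≤ 2 ^ u * a (j + t) := by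
    rw [← add_assoc]
    exact hpow (j + t) u
  have h6 : (2 : ℝ) ^ u ≤ 2 ^ J1 := pow_le_pow_right₀ (by norm_num) hu
  have h7 : θ ^ t ≤ 4 * θ ^ (t + u) := by
    rw [pow_add]
    have h8 : 1 / 4 ≤ θ ^ u := hθJ.trans (pow_le_pow_of_le_one hθ0.le hθ1.le hu)
    have hp : 0 < θ ^ t := by positivity
    nlinarith
  have haj := (ha j).le
  calc a (j + (t + u)) ≤ 2 ^ u * a (j + t) := h5
    _ ≤ 2 ^ J1 * a (j + t) := mul_le_mul_of_nonneg_right h6 (ha _).le
    _ ≤ 2 ^ J1 * (θ ^ t * a j) := mul_le_mul_of_nonneg_left h3 (by positivity)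
    _ ≤ 2 ^ J1 * (4 * θ ^ (t + u) * a j) :=
        mul_le_mul_of_nonneg_left (mul_le_mul_of_nonneg_right h7 haj) (by positivity)
    _ = 2 ^ J1 * 4 * θ ^ (t + u) * a j := by ring

/-- the pure assembly, weak form: all the constants of the quality of the inputs may use a
bounded range `[j, j + J1]` of levels, and the first level `i0` may depend on `J1` -/
theorem asm_pure2 {a : ℕ → ℝ} {D M G : ℕ → ℕ → ℝ}
    (ha : ∀ i, 0 < a i) (ha2 : ∀ i, a (i + 1) ≤ 2 * a i)
    (hD : ∀ N i, 0 ≤ D N i) (hM : ∀ N i, 0 ≤ M N i) (hG : ∀ N i, 0 ≤ G N i)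
    (A1 : ∀ N i, D N (i + 1) + M N i ≤ D N i)
    (A2 : ∀ K : ℝ, ∃ c : ℝ, 0 < c ∧ ∃ j0 : ℕ, ∀ J1 : ℕ, ∃ i0 : ℕ, ∀ j i N : ℕ, i0 ≤ j → j ≤ i →
      i + j0 ≤ j + J1 → 2 ^ (j + J1) < N → N ≤ 2 * 2 ^ (j + J1) → G N i ≤ K →
      c * N * a i ≤ M N i)
    (A3 : ∃ C : ℝ, 0 < C ∧ ∀ (J : ℕ) (al : ℕ → ℝ), (∀ i, 0 ≤ al i) →
      ∃ N : ℕ, 2 ^ J < N ∧ N ≤ 2 * 2 ^ J ∧
        ∑ i ∈ range J, al i * G N i ≤ C * ∑ i ∈ range J, al i)
    (A4 : ∀ e : ℝ, 0 < e → ∃ (C : ℝ) (j0 : ℕ), ∀ J1 : ℕ, j0 ≤ J1 → ∃ i0 : ℕ, ∀ j N : ℕ, i0 ≤ j →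
      2 ^ (j + J1) < N → N ≤ 2 * 2 ^ (j + J1) →
      D N j ≤ C * N * a j + e * N * ∑ i ∈ Icc j (j + J1), a i) :
    ∃ C θ : ℝ, 0 < C ∧ 0 < θ ∧ θ < 1 ∧ ∀ J : ℕ, a J ≤ C * θ ^ J := by
  obtain ⟨C, θ, j0, hC, hθ0, hθ1, h⟩ := asm_pure3 ha ha2 hD hM hG A1 A2 A3 A4
  set Q : ℝ := ∑ i ∈ range j0, a i / θ ^ i with hQ
  have hQ0 : 0 ≤ Q := Finset.sum_nonneg fun i _ => by have := (ha i).le; positivity
  have hj0 := ha j0
  refine ⟨C * (a j0 / θ ^ j0) + Q, θ, by positivity, hθ0, hθ1, ?_⟩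
  intro J
  have hpJ : 0 < θ ^ J := by positivity
  by_cases hJ : J < j0
  · have : a J / θ ^ J ≤ Q :=
      Finset.single_le_sum (f := fun i => a i / θ ^ i)
        (fun i _ => by have := (ha i).le; positivity) (by simpa using hJ)
    rw [div_le_iff₀ hpJ] at this
    have h13 : Q * θ ^ J ≤ (C * (a j0 / θ ^ j0) + Q) * θ ^ J := by
      apply mul_le_mul_of_nonneg_right _ hpJ.le
      have : 0 ≤ C * (a j0 / θ ^ j0) := by positivity
      linarith
    linarith
  · obtain ⟨r, rfl⟩ : ∃ r, J = j0 + r := ⟨J - j0, by omega⟩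
    have h1 := h j0 (j0 + r) le_rfl (by omega)
    rw [show j0 + r - j0 = r by omega] at h1
    have h2 : C * θ ^ r * a j0 = C * (a j0 / θ ^ j0) * θ ^ (j0 + r) := by
      rw [pow_add]
      have : θ ^ j0 ≠ 0 := by positivity
      field_simp
    rw [h2] at h1
    have h3 : C * (a j0 / θ ^ j0) * θ ^ (j0 + r) ≤ (C * (a j0 / θ ^ j0) + Q) * θ ^ (j0 + r) := by
      apply mul_le_mul_of_nonneg_right _ hpJ.le
      linarith
    linarith

end Pool.Agent.W_7d29a1_XA
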