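import Pool.Agent.W_7d29a1_XA.Full
import Pool.Agent.W_7d29a1_h18.HEU

/-!
STORM X, the assembly: the smallness of `log N` against the unit of the small scale. (helper51)
-/

namespace Pool.Agent.W_7d29a1_XA

open MeasureTheory ProbabilityTheory Filter Topology Finset
open Pool.Agent.W_7d29a1_F Pool.Agent.W_7d29a1_h4g Pool.Agent.W_7d29a1_G Pool.Agent.W_7d29a1_SR
open Pool.Agent.W_7d29a1_X42 Pool.Agent.W_7d29a1_XG Pool.Agent.W_7d29a1_X50

noncomputable section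

variable {μ : Measure ℝ} [IsProbabilityMeasure μ] {c C : ℝ} {n₀ : ℕ}

/-- In the ranges of the assembly `K log N` is at most the unit of the lowest level. -/
theorem log_small (h : In μ c C n₀) {K : ℝ} (hK : 0 ≤ K) (J1 : ℕ) : ∃ i0 : ℕ, ∀ j N : ℕ, i0 ≤ j →
    N ≤ 2 * 2 ^ (j + J1) → K * Real.log N ≤ EE μ (2 ^ j) := by
  obtain ⟨n₃, h3⟩ := Pool.Agent.W_7d29a1_h18.EE_log h.em h.nd (2 * K)
  refine ⟨max n₃ (J1 + 1), fun j N hj hN => ?_⟩
  have hj1 : n₃ ≤ j := (le_max_left _ _).trans hj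
  have hj2 : J1 + 1 ≤ j := (le_max_right _ _).trans hj
  have h4 := h3 (2 ^ j) (hj1.trans Nat.lt_two_pow_self.le)
  rcases Nat.eq_zero_or_pos N with h0 | h0
  · rw [h0]
    simpa using (EEp (μ := μ) (2 ^ j)).le
  have h5 : Real.log N ≤ 2 * Real.log ((2 ^ j : ℕ) : ℝ) := by
    have h6 : (N : ℝ) ≤ (((2 ^ j : ℕ) : ℝ)) ^ 2 := by
      have h7 : N ≤ (2 ^ j) ^ 2 := by
        refine hN.trans ?_
        rw [← pow_succ', ← pow_mul]
        exact Nat.pow_le_pow_right (by norm_num) (by omega)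
      exact_mod_cast h7
    have h8 := Real.log_le_log (by exact_mod_cast h0) h6
    rw [Real.log_pow] at h8
    exact_mod_cast h8
  calc K * Real.log N ≤ K * (2 * Real.log ((2 ^ j : ℕ) : ℝ)) := mul_le_mul_of_nonneg_left h5 hK
    _ = 2 * K * Real.log ((2 ^ j : ℕ) : ℝ) := by ring
    _ ≤ EE μ (2 ^ j) := h4

/-- The strong form of the bound on the complete slabs gives `ESF`. -/
theorem ESF_of_strong (h : In μ c C n₀) (hF : ∃ (B K : ℝ) (j₀ : ℕ), ∀ j N : ℕ, j₀ ≤ j → 2 ^ j ≤ N →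
    K * Real.log N ≤ EE μ (2 ^ j) →
    ∑ k ∈ range (N / 2 ^ j), (St μ 0 (k * 2 ^ j) (2 ^ j) (N - (k + 1) * 2 ^ j) +
      Lk μ 0 (k * 2 ^ j) (2 ^ j) (N - (k + 1) * 2 ^ j)) ≤ B * N * aa μ j) : ESF μ := by
  obtain ⟨B, K, j₀, hF⟩ := hF
  refine ⟨B, fun J1 => ?_⟩
  obtain ⟨i0, hi0⟩ := log_small h (le_max_right K 0) J1
  refine ⟨max i0 j₀, fun j N hj hN1 hN2 => ?_⟩
  have h1 := hi0 j N ((le_max_left _ _).trans hj) hN2
  have h2 : 2 ^ j ≤ N := (Nat.pow_le_pow_right (by norm_num) (Nat.le_add_right _ _)).trans hN1.le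
  have h3 : 0 ≤ Real.log N := Real.log_natCast_nonneg N
  refine hF j N ((le_max_right _ _).trans hj) h2 (le_trans ?_ h1)
  exact mul_le_mul_of_nonneg_right (le_max_left _ _) h3

end

end Pool.Agent.W_7d29a1_XA
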