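import Pool.Agent.W_7d29a1_XA.Defs
import Pool.Agent.W_7d29a1_SR.Mom
import Pool.Agent.W_7d29a1_SR.TransB
import Pool.Agent.W_7d29a1_SR.VarS
import Pool.Agent.W_7d29a1_SR.MainS

/-!
STORM X, the assembly: the variance of `log Z_n` and the exponent `χ`. (helper51)
-/

namespace Pool.Agent.W_7d29a1_XA

open MeasureTheory ProbabilityTheory Filter Topology
open Pool.Agent.W_7d29a1_F Pool.Agent.W_7d29a1_h4g Pool.Agent.W_7d29a1_G Pool.Agent.W_7d29a1_SR
open Pool.Agent.W_7d29a1_h47 (EM_of Nondeg_of map_toEnv)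

noncomputable section

variable {μ : Measure ℝ} [IsProbabilityMeasure μ] {c C : ℝ} {n₀ : ℕ}

/-- The variance of the free energy: power superconcentration. -/
theorem var_power (h : In μ c C n₀) (hNL : XNL μ) (hES : XES μ) :
    ∃ B e : ℝ, 0 < B ∧ 0 < e ∧ e ≤ 1 ∧ ∀ n : ℕ, 1 ≤ n →
      Var[fun η => V μ 0 η 0 n; law μ] ≤ B * (n : ℝ) ^ (1 - e) := by
  obtain ⟨A, hA⟩ := moments h 2
  obtain ⟨D, e, hD, he, h1⟩ := EE_power h.em hNL hES
  refine ⟨max A 1 * D, min e 1, by positivity, lt_min he one_pos, min_le_right _ _, fun n hn => ?_⟩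
  have h2 : Var[fun η => V μ 0 η 0 n; law μ] ≤ ∫ η, |V μ 0 η 0 n| ^ 2 ∂(law μ) := by
    have h3 := variance_le_expectation_sq (μ := law μ) (X := fun η => V μ 0 η 0 n)
      (measurable_V 0 n).aestronglyMeasurable
    refine h3.trans (le_of_eq ?_)
    refine integral_congr_ae (Eventually.of_forall fun η => ?_)
    simp [sq_abs]
  have hE : 0 ≤ EE μ n ^ 2 := sq_nonneg _
  have hn1 : (1 : ℝ) ≤ n := by exact_mod_cast hn
  calc Var[fun η => V μ 0 η 0 n; law μ] ≤ ∫ η, |V μ 0 η 0 n| ^ 2 ∂(law μ) := h2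
    _ ≤ A * EE μ n ^ 2 := (hA n hn).2
    _ ≤ max A 1 * EE μ n ^ 2 := mul_le_mul_of_nonneg_right (le_max_left _ _) hE
    _ ≤ max A 1 * (D * (n : ℝ) ^ (1 - e)) := mul_le_mul_of_nonneg_left (h1 n hn) (by positivity)
    _ ≤ max A 1 * (D * (n : ℝ) ^ (1 - min e 1)) := by
        apply mul_le_mul_of_nonneg_left _ (by positivity)
        apply mul_le_mul_of_nonneg_left _ hD.le
        exact Real.rpow_le_rpow_of_exponent_le hn1 (by have := min_le_left e 1; linarith)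
    _ = max A 1 * D * (n : ℝ) ^ (1 - min e 1) := by ring

/-- The variance of the free energy at all scales. -/
theorem var_power_two (h : In μ c C n₀) (hNL : XNL μ) (hES : XES μ) :
    ∃ (B e : ℝ) (n₁ : ℕ), 0 < B ∧ 0 < e ∧ e ≤ 1 ∧ 1 ≤ n₁ ∧ ∀ m n : ℕ, n₁ ≤ m → m ≤ n →
      Var[fun η => V μ 0 η 0 n; law μ] ≤ B * ((n : ℝ) / m) ^ (1 - e) * Var[fun η => V μ 0 η 0 m; law μ] := by
  obtain ⟨A, hA⟩ := moments h 2
  obtain ⟨a, ha, hva⟩ := var_ge h
  obtain ⟨D, e, n₁, hD, he, he1, hn1, h1⟩ := EE_power_two h.em hNL hES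
  refine ⟨max A 1 * D / a, e, n₁, by positivity, he, he1, hn1, fun m n hm hmn => ?_⟩
  have hm0 : 1 ≤ m := hn1.trans hm
  have hn0 : 1 ≤ n := hm0.trans hmn
  have h2 : Var[fun η => V μ 0 η 0 n; law μ] ≤ ∫ η, |V μ 0 η 0 n| ^ 2 ∂(law μ) := by
    have h3 := variance_le_expectation_sq (μ := law μ) (X := fun η => V μ 0 η 0 n)
      (measurable_V 0 n).aestronglyMeasurable
    refine h3.trans (le_of_eq ?_)
    refine integral_congr_ae (Eventually.of_forall fun η => ?_)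
    simp [sq_abs]
  have hE : 0 ≤ EE μ n ^ 2 := sq_nonneg _
  have h4 : EE μ m ^ 2 ≤ Var[fun η => V μ 0 η 0 m; law μ] / a := by
    rw [le_div_iff₀ ha, mul_comm]
    exact hva m hm0
  have h5 : 0 ≤ ((n : ℝ) / m) ^ (1 - e) := by positivity
  calc Var[fun η => V μ 0 η 0 n; law μ] ≤ ∫ η, |V μ 0 η 0 n| ^ 2 ∂(law μ) := h2
    _ ≤ A * EE μ n ^ 2 := (hA n hn0).2
    _ ≤ max A 1 * EE μ n ^ 2 := mul_le_mul_of_nonneg_right (le_max_left _ _) hE
    _ ≤ max A 1 * (D * ((n : ℝ) / m) ^ (1 - e) * EE μ m ^ 2) :=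
        mul_le_mul_of_nonneg_left (h1 m n hm hmn) (by positivity)
    _ ≤ max A 1 * (D * ((n : ℝ) / m) ^ (1 - e) * (Var[fun η => V μ 0 η 0 m; law μ] / a)) :=
        mul_le_mul_of_nonneg_left (mul_le_mul_of_nonneg_left h4 (by positivity)) (by positivity)
    _ = max A 1 * D / a * ((n : ℝ) / m) ^ (1 - e) * Var[fun η => V μ 0 η 0 m; law μ] := by ring

/-- The mean of the free energy: the non random fluctuations. -/
theorem mean_power (h : In μ c C n₀) (hNL : XNL μ) (hES : XES μ) :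
    ∃ B e : ℝ, 0 < B ∧ 0 < e ∧ e ≤ 1 ∧ ∀ n : ℕ, 1 ≤ n →
      -∫ η, V μ 0 η 0 n ∂(law μ) ≤ B * (n : ℝ) ^ ((1 - e) / 2) := by
  obtain ⟨D, e, hD, he, h1⟩ := EE_power h.em hNL hES
  refine ⟨Real.sqrt D, min e 1, Real.sqrt_pos.2 hD, lt_min he one_pos, min_le_right _ _, fun n hn => ?_⟩
  have hn0 : (0 : ℝ) < n := by exact_mod_cast hn
  have hn1 : (1 : ℝ) ≤ n := by exact_mod_cast hn
  have h2 : -∫ η, V μ 0 η 0 n ∂(law μ) ≤ EE μ n := by
    have := (mean_V h n).1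
    linarith
  have h3 : EE μ n ^ 2 ≤ (Real.sqrt D * (n : ℝ) ^ ((1 - min e 1) / 2)) ^ 2 := by
    have h4 : ((n : ℝ) ^ ((1 - min e 1) / 2)) ^ 2 = (n : ℝ) ^ (1 - min e 1) := by
      rw [← Real.rpow_natCast, ← Real.rpow_mul hn0.le]
      congr 1
      push_cast
      ring
    rw [mul_pow, Real.sq_sqrt hD.le, h4]
    refine (h1 n hn).trans (mul_le_mul_of_nonneg_left ?_ hD.le)
    refine Real.rpow_le_rpow_of_exponent_le hn1 ?_
    have := min_le_left e 1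
    linarith
  exact h2.trans (le_of_sq_le_sq h3 (by positivity))

/-- From a power bound of the variance to the exponent `χ`. -/
theorem chiP_le_of_var {Ω : Type*} [MeasurableSpace Ω] {P : Measure Ω} {β : ℝ} {ω : ℕ × ℤ → Ω → ℝ}
    {B e : ℝ} (he1 : e ≤ 1)
    (h : ∀ n : ℕ, 1 ≤ n → Var[fun x => Real.log (pZ β (fun p => ω p x) n); P] ≤ B * (n : ℝ) ^ (1 - e)) :
    chiP P β ω ≤ (1 - e) / 2 := by
  unfold chiP
  refine Real.sSup_le ?_ (by linarith)
  rintro a ⟨_, ha⟩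
  by_contra hcon
  rw [not_le] at hcon
  have hd : 0 < 2 * a - (1 - e) := by linarith
  have h1 : Tendsto (fun n : ℕ => (n : ℝ) ^ (2 * a - (1 - e))) atTop atTop :=
    (tendsto_rpow_atTop hd).comp tendsto_natCast_atTop_atTop
  obtain ⟨n, hn1, hn2, hn3⟩ := (ha.and ((h1.eventually_gt_atTop B).and (eventually_ge_atTop 1))).exists
  have hn0 : (0 : ℝ) < n := by exact_mod_cast hn3
  have h2 := h n hn3
  have h3 : (n : ℝ) ^ (2 * a) = (n : ℝ) ^ (2 * a - (1 - e)) * (n : ℝ) ^ (1 - e) := by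
    rw [← Real.rpow_add hn0]
    ring_nf
  have h4 : 0 < (n : ℝ) ^ (1 - e) := Real.rpow_pos_of_pos hn0 _
  have h5 : (n : ℝ) ^ (2 * a - (1 - e)) * (n : ℝ) ^ (1 - e) ≤ B * (n : ℝ) ^ (1 - e) := by
    rw [← h3]
    exact hn1.trans h2
  have h6 := le_of_mul_le_mul_right h5 h4
  linarith

/-- **Power superconcentration of the directed polymer in dimension one**: from the input structure,
(NL) and (ES). -/
theorem main_X
    (hIn : ∀ (μ : Measure ℝ) [IsProbabilityMeasure μ], Pool.Agent.W_7d29a1_h47.EM μ →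
      Pool.Agent.W_7d29a1_h47.Nondeg μ → ∃ (c C : ℝ) (n₀ : ℕ), In μ c C n₀)
    (hNL : ∀ (μ : Measure ℝ) [IsProbabilityMeasure μ], Pool.Agent.W_7d29a1_h47.EM μ →
      Pool.Agent.W_7d29a1_h47.Nondeg μ → XNL μ)
    (hES : ∀ (μ : Measure ℝ) [IsProbabilityMeasure μ], Pool.Agent.W_7d29a1_h47.EM μ →
      Pool.Agent.W_7d29a1_h47.Nondeg μ → XES μ)
    {Ω : Type*} [MeasurableSpace Ω] (P : Measure Ω) [IsProbabilityMeasure P]
    (ω : ℕ × ℤ → Ω → ℝ) (hmeas : ∀ p, Measurable (ω p)) (hindep : iIndepFun ω P)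
    (hident : ∀ p q, IdentDistrib (ω p) (ω q) P P) (hnc : ¬ ∃ c : ℝ, ∀ᵐ x ∂P, ω (0, 0) x = c)
    (hexp : ∀ b : ℝ, Integrable (fun x => Real.exp (b * ω (0, 0) x)) P) {β : ℝ} (hβ : 0 < β) :
    ∃ (F B e : ℝ) (n₁ : ℕ), 0 < B ∧ 0 < e ∧ e ≤ 1 ∧ 1 ≤ n₁ ∧
      (∀ᵐ x ∂P, Tendsto (fun n : ℕ => Real.log (pZ β (fun p => ω p x) n) / n) atTop (𝓝 F)) ∧
      (∀ n : ℕ, 1 ≤ n → Var[fun x => Real.log (pZ β (fun p => ω p x) n); P] ≤ B * (n : ℝ) ^ (1 - e)) ∧
      (∀ m n : ℕ, n₁ ≤ m → m ≤ n → Var[fun x => Real.log (pZ β (fun p => ω p x) n); P] ≤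
        B * ((n : ℝ) / m) ^ (1 - e) * Var[fun x => Real.log (pZ β (fun p => ω p x) m); P]) ∧
      (∀ n : ℕ, 1 ≤ n → 0 ≤ n * F - ∫ x, Real.log (pZ β (fun p => ω p x) n) ∂P ∧
        n * F - ∫ x, Real.log (pZ β (fun p => ω p x) n) ∂P ≤ B * (n : ℝ) ^ ((1 - e) / 2)) ∧
      chiP P β ω ≤ 1 / 2 - e / 2 := by
  obtain ⟨μ, hμdef⟩ : ∃ μ : Measure ℝ, μ = P.map fun x => β * ω (0, 0) x := ⟨_, rfl⟩
  have hm0 : Measurable fun x => β * ω (0, 0) x := (hmeas _).const_mul β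
  have hprob : IsProbabilityMeasure μ := by
    rw [hμdef]
    exact Measure.isProbabilityMeasure_map hm0.aemeasurable
  have hμ : Pool.Agent.W_7d29a1_h47.EM μ := by
    rw [hμdef]
    exact EM_of (hmeas _) hexp β
  have hnd : Pool.Agent.W_7d29a1_h47.Nondeg μ := by
    rw [hμdef]
    exact Nondeg_of (hmeas _) hnc hβ
  have hmpE := map_toEnv hmeas hindep hident β
  rw [← hμdef] at hmpE
  have hmp := mp_toF hmeas hindep hident β
  rw [← hμdef] at hmp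
  obtain ⟨c₀, C₀, n₀, hI⟩ := hIn μ hμ hnd
  obtain ⟨B, e, hB, he, he1, h1⟩ := var_power hI (hNL μ hμ hnd) (hES μ hμ hnd)
  obtain ⟨B', e', n₁, hB', he', he1', hn1, h1'⟩ := var_power_two hI (hNL μ hμ hnd) (hES μ hμ hnd)
  obtain ⟨B'', e'', hB'', he'', he1'', h1''⟩ := mean_power hI (hNL μ hμ hnd) (hES μ hμ hnd)
  obtain ⟨D, hD⟩ : ∃ D : ℝ, D = max B (max B' B'') := ⟨_, rfl⟩
  obtain ⟨d, hd⟩ : ∃ d : ℝ, d = min e (min e' e'') := ⟨_, rfl⟩
  have hD0 : 0 < D := by rw [hD]; exact lt_max_of_lt_left hB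
  have hDB : B ≤ D := by rw [hD]; exact le_max_left _ _
  have hDB' : B' ≤ D := by rw [hD]; exact (le_max_left _ _).trans (le_max_right _ _)
  have hDB'' : B'' ≤ D := by rw [hD]; exact (le_max_right _ _).trans (le_max_right _ _)
  have hd0 : 0 < d := by rw [hd]; exact lt_min he (lt_min he' he'')
  have hde : d ≤ e := by rw [hd]; exact min_le_left _ _
  have hde' : d ≤ e' := by rw [hd]; exact (min_le_right _ _).trans (min_le_left _ _)
  have hde'' : d ≤ e'' := by rw [hd]; exact (min_le_right _ _).trans (min_le_right _ _)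
  have h2 : ∀ n : ℕ, 1 ≤ n → Var[fun x => Real.log (pZ β (fun p => ω p x) n); P] ≤
      D * (n : ℝ) ^ (1 - d) := by
    intro n hn
    rw [var_pZ hmp]
    have hn1 : (1 : ℝ) ≤ n := by exact_mod_cast hn
    refine (h1 n hn).trans (mul_le_mul hDB ?_ (by positivity) hD0.le)
    exact Real.rpow_le_rpow_of_exponent_le hn1 (by linarith)
  have h3 := chiP_le_of_var (hde.trans he1) h2
  refine ⟨Pool.Agent.W_7d29a1_h47.Lam μ 0 - Real.log 2, D, d, n₁, hD0, hd0, hde.trans he1, hn1, lim_pZ hμ hmpE, h2,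
    ?_, ?_, by linarith⟩
  · intro m n hm hmn
    rw [var_pZ hmp, var_pZ hmp]
    have hm0 : (0 : ℝ) < m := by
      have : 0 < m := lt_of_lt_of_le hn1 hm
      exact_mod_cast this
    have hr : (1 : ℝ) ≤ n / m := by
      rw [le_div_iff₀ hm0, one_mul]
      exact_mod_cast hmn
    refine (h1' m n hm hmn).trans (mul_le_mul_of_nonneg_right ?_ (variance_nonneg _ _))
    refine mul_le_mul hDB' ?_ (by positivity) hD0.le
    exact Real.rpow_le_rpow_of_exponent_le hr (by linarith)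
  · intro n hn
    have hn1 : (1 : ℝ) ≤ n := by exact_mod_cast hn
    rw [mean_pZ hμ hmp]
    have h4 := mean_V hI n
    have h5 := h1'' n hn
    have h6 : B'' * (n : ℝ) ^ ((1 - e'') / 2) ≤ D * (n : ℝ) ^ ((1 - d) / 2) := by
      refine mul_le_mul hDB'' ?_ (by positivity) hD0.le
      exact Real.rpow_le_rpow_of_exponent_le hn1 (by linarith)
    constructor <;> linarith [h4.2]

end

end Pool.Agent.W_7d29a1_XA
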