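import Pool.Agent.W_7d29a1_XA.Small
import Pool.Agent.W_7d29a1_SR.SubH2
import Pool.Agent.W_7d29a1_XT.Wire
import Pool.Agent.W_7d29a1_X72.I3
import Pool.Agent.W_7d29a1_X97.Roots
import Pool.Agent.W_7d29a1_X.NRE89
import Pool.Agent.W_7d29a1_XG.NLg

/-!
STORM X, the assembly: (ES) and (NL) from the input structure and the doubling of the rate function. (helper51)
-/

namespace Pool.Agent.W_7d29a1_XA

open MeasureTheory ProbabilityTheory Filter Topology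
open Pool.Agent.W_7d29a1_F Pool.Agent.W_7d29a1_G Pool.Agent.W_7d29a1_SR

variable {μ : Measure ℝ} [IsProbabilityMeasure μ] {c C : ℝ} {n₀ : ℕ}

/-- (ES) on the complete slabs. -/
theorem esf_all (h : In μ c C n₀) (hF : HF2 μ) : ESF μ := by
  have hD : Pool.Agent.W_7d29a1_X50.Dj μ := by
    obtain ⟨K, v₀, -, hv₀, -, hJ⟩ := J_dbl h hF
    exact ⟨K, v₀, hv₀, hJ⟩
  obtain ⟨c', Cl, i₁, hc', hCl, hL⟩ := Pool.Agent.W_7d29a1_X72.I3 h hD
  obtain ⟨Cr, hCr, n₂, hR⟩ := Pool.Agent.W_7d29a1_X97.roots_pos h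
  exact Pool.Agent.W_7d29a1_XT.esf_wire h hD hc' hCl (fun i N hi hN _ => hL i N hi hN) hCr hR (Ce := 6) (by norm_num)
    Pool.Agent.W_7d29a1_X.hE_of

/-- (ES). -/
theorem xes_all (h : In μ c C n₀) (hF : HF2 μ) : XES μ := XES_of_ESF h (esf_all h hF)

/-- (NL). -/
theorem xnl_all (h : In μ c C n₀) : XNL μ := Pool.Agent.W_7d29a1_XG.xNL h

end Pool.Agent.W_7d29a1_XA
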