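import Pool.Agent.W_7d29a1_XA.Super
import Pool.Agent.W_7d29a1_XA.Leaves
import Pool.Agent.W_7d29a1_SR.InOf
import Pool.Agent.W_7d29a1_G.Final

/-!
STORM X: power superconcentration of the directed polymer in dimension one, the three inputs of `main_super`. (helper51)
-/

namespace Pool.Agent.W_7d29a1_XA

open MeasureTheory ProbabilityTheory Filter Topology
open Pool.Agent.W_7d29a1_F Pool.Agent.W_7d29a1_G Pool.Agent.W_7d29a1_SR

/-- The input structure. -/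
theorem in_all (μ : Measure ℝ) [IsProbabilityMeasure μ] (hμ : Pool.Agent.W_7d29a1_h47.EM μ)
    (hnd : Pool.Agent.W_7d29a1_h47.Nondeg μ) : ∃ (c C : ℝ) (n₀ : ℕ), In μ c C n₀ :=
  in_of hμ hnd (Pool.Agent.W_7d29a1_G.targets hμ hnd) (Pool.Agent.W_7d29a1_G.frame hμ hnd).in'
    (Pool.Agent.W_7d29a1_G.frame hμ hnd).luck

/-- (NL). -/
theorem xnl (μ : Measure ℝ) [IsProbabilityMeasure μ] (hμ : Pool.Agent.W_7d29a1_h47.EM μ)
    (hnd : Pool.Agent.W_7d29a1_h47.Nondeg μ) : XNL μ := by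
  obtain ⟨c, C, n₀, h⟩ := in_all μ hμ hnd
  exact xnl_all h

/-- (ES). -/
theorem xes (μ : Measure ℝ) [IsProbabilityMeasure μ] (hμ : Pool.Agent.W_7d29a1_h47.EM μ)
    (hnd : Pool.Agent.W_7d29a1_h47.Nondeg μ) : XES μ := by
  obtain ⟨c, C, n₀, h⟩ := in_all μ hμ hnd
  exact xes_all h (Pool.Agent.W_7d29a1_G.targets hμ hnd).hF2

end Pool.Agent.W_7d29a1_XA
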