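import Pool.Agent.W_7d29a1_XA.Chi
import Pool.Agent.W_7d29a1_SR.MainS

/-!
STORM X: the theorem on the probability space of the problem, with the non random fluctuation (hand-in Superconcentration).
(helper46)
-/

namespace Pool.Agent.W_7d29a1_XA

open MeasureTheory ProbabilityTheory Filter Topology
open Pool.Agent.W_7d29a1_F Pool.Agent.W_7d29a1_h4g Pool.Agent.W_7d29a1_G Pool.Agent.W_7d29a1_SR
open Pool.Agent.W_7d29a1_h47 (EM_of Nondeg_of map_toEnv)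

noncomputable section

/-- The non random fluctuation. -/
theorem gap_power {μ : Measure ℝ} [IsProbabilityMeasure μ] {c C : ℝ} {n₀ : ℕ} (h : In μ c C n₀) (hNL : XNL μ)
    (hES : XES μ) :
    ∃ B e : ℝ, 0 < B ∧ 0 < e ∧ e ≤ 1 ∧ ∀ n : ℕ, 1 ≤ n →
      0 ≤ -∫ η, V μ 0 η 0 n ∂(law μ) ∧ -∫ η, V μ 0 η 0 n ∂(law μ) ≤ B * (n : ℝ) ^ ((1 - e) / 2) := by
  obtain ⟨D, e, hD, he, h1⟩ := EE_power h.em hNL hES
  refine ⟨Real.sqrt D, min e 1, Real.sqrt_pos.2 hD, lt_min he one_pos, min_le_right _ _, fun n hn => ?_⟩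
  obtain ⟨m1, m2⟩ := mean_V h n
  refine ⟨by linarith, ?_⟩
  have hn1 : (1 : ℝ) ≤ n := by exact_mod_cast hn
  have hn0 : (0 : ℝ) ≤ n := by linarith
  have hE : 0 ≤ EE μ n := (EE_pos (μ := μ) n).le
  have h2 : EE μ n ≤ Real.sqrt (D * (n : ℝ) ^ (1 - e)) := by
    rw [← Real.sqrt_sq hE]
    exact Real.sqrt_le_sqrt (h1 n hn)
  have h3 : Real.sqrt (D * (n : ℝ) ^ (1 - e)) = Real.sqrt D * (n : ℝ) ^ ((1 - e) / 2) := by
    rw [Real.sqrt_mul hD.le, Real.sqrt_eq_rpow ((n : ℝ) ^ (1 - e)), ← Real.rpow_mul hn0]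
    ring_nf
  have h4 : (n : ℝ) ^ ((1 - e) / 2) ≤ (n : ℝ) ^ ((1 - min e 1) / 2) :=
    Real.rpow_le_rpow_of_exponent_le hn1 (by have := min_le_left e 1; linarith)
  have h5 := mul_le_mul_of_nonneg_left h4 (Real.sqrt_nonneg D)
  linarith

/-- **Power superconcentration of the directed polymer in dimension one**, from the input structure, (NL) and (ES). -/
theorem main_super
    (hIn : ∀ (μ : Measure ℝ) [IsProbabilityMeasure μ], Pool.Agent.W_7d29a1_h47.EM μ →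
      Pool.Agent.W_7d29a1_h47.Nondeg μ → ∃ (c C : ℝ) (n₀ : ℕ), In μ c C n₀)
    (hNL : ∀ (μ : Measure ℝ) [IsProbabilityMeasure μ], Pool.Agent.W_7d29a1_h47.EM μ →
      Pool.Agent.W_7d29a1_h47.Nondeg μ → XNL μ)
    (hES : ∀ (μ : Measure ℝ) [IsProbabilityMeasure μ], Pool.Agent.W_7d29a1_h47.EM μ →
      Pool.Agent.W_7d29a1_h47.Nondeg μ → XES μ)
    {Ω : Type*} [MeasurableSpace Ω] (P : Measure Ω) [IsProbabilityMeasure P]
    (ω : ℕ × ℤ → Ω → ℝ) (hmeas : ∀ p, Measurable (ω p)) (hindep : iIndepFun ω P)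
    (hident : ∀ p q, IdentDistrib (ω p) (ω q) P P) (hnc : ¬ ∃ c : ℝ, ∀ᵐ x ∂P, ω (0, 0) x = c)
    (hexp : ∀ b : ℝ, Integrable (fun x => Real.exp (b * ω (0, 0) x)) P) {β : ℝ} (hβ : 0 < β) :
    ∃ (F B e : ℝ) (n₁ : ℕ), 0 < e ∧ e ≤ 1 ∧ 1 ≤ n₁ ∧
      (∀ᵐ x ∂P, Tendsto (fun n : ℕ => Real.log (pZ β (fun p => ω p x) n) / n) atTop (𝓝 F)) ∧
      (∀ n : ℕ, 1 ≤ n → Var[fun x => Real.log (pZ β (fun p => ω p x) n); P] ≤ B * (n : ℝ) ^ (1 - e)) ∧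
      (∀ m n : ℕ, n₁ ≤ m → m ≤ n → Var[fun x => Real.log (pZ β (fun p => ω p x) n); P] ≤
        B * ((n : ℝ) / m) ^ (1 - e) * Var[fun x => Real.log (pZ β (fun p => ω p x) m); P]) ∧
      (∀ n : ℕ, 1 ≤ n → 0 ≤ n * F - ∫ x, Real.log (pZ β (fun p => ω p x) n) ∂P ∧
        n * F - ∫ x, Real.log (pZ β (fun p => ω p x) n) ∂P ≤ B * (n : ℝ) ^ ((1 - e) / 2)) ∧
      chiP P β ω ≤ (1 - e) / 2 := by
  obtain ⟨F, B, e, n₁, hB, he, he1, hn1, hF, hv, hv2, hm, hchi⟩ :=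
    main_X hIn hNL hES P ω hmeas hindep hident hnc hexp hβ
  exact ⟨F, B, e, n₁, he, he1, hn1, hF, hv, hv2, hm, by linarith⟩

end

end Pool.Agent.W_7d29a1_XA
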